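import Mathlib

/-!
# Polynomials of small degree on the dual variety of the Fermat cubic

A polynomial `D` of degree at most `n + 4` in `n + 2 ≥ 3` variables which vanishes at the gradients
`(3 x_i ^ 2)` of the Fermat cubic `∑ x_i ^ 3` at all its points with `x_0 ≠ 0` is zero.
-/

open MvPolynomial

namespace Pool.Agent.TH238.QP

noncomputable section

/-- the primitive third root of unity -/
def om : ℂ := Complex.exp (2 * Real.pi * Complex.I / (3 : ℕ))

lemma om_prim : IsPrimitiveRoot om 3 := by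
  unfold om
  exact_mod_cast Complex.isPrimitiveRoot_exp 3 (by norm_num)

lemma norm_om : ‖om‖ = 1 := by
  exact om_prim.norm'_eq_one (by norm_num)

/-- signed sums -/
def BB (n : ℕ) (A : Fin (n + 1) → ℝ) (k : Fin (n + 1)) : ℝ := if k = Fin.last n then 0 else A k

def SS (n : ℕ) (A : Fin (n + 1) → ℝ) (k : Fin (n + 1)) : ℝ := ∑ i, A i - 2 * BB n A k

lemma BB_inj (n : ℕ) (A : Fin (n + 1) → ℝ) (hpos : ∀ i, 0 < A i) (hinj : Function.Injective A) :
    Function.Injective (BB n A) := by
  intro k l h
  unfold BB at h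
  split_ifs at h with h1 h2 h2
  · rw [h1, h2]
  · exact absurd h.symm (hpos l).ne'
  · exact absurd h (hpos k).ne'
  · exact hinj h

lemma SS_inj (n : ℕ) (A : Fin (n + 1) → ℝ) (hpos : ∀ i, 0 < A i) (hinj : Function.Injective A) :
    Function.Injective (SS n A) := by
  intro k l h
  apply BB_inj n A hpos hinj
  unfold SS at h
  linarith

lemma SS_pos (n : ℕ) (A : Fin (n + 1) → ℝ) (hpos : ∀ i, 0 < A i)
    (hlast : ∀ i, i ≠ Fin.last n → A i < A (Fin.last n)) (k : Fin (n + 1)) : 0 < SS n A k := by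
  unfold SS BB
  split_ifs with h
  · have : 0 < ∑ i, A i := Finset.sum_pos (fun i _ => hpos i) Finset.univ_nonempty
    linarith
  · have h1 : A k + A (Fin.last n) ≤ ∑ i, A i := by
      rw [← Finset.sum_pair h]
      apply Finset.sum_le_sum_of_subset_of_nonneg (Finset.subset_univ _)
      intro i _ _
      exact (hpos i).le
    have := hlast k h
    linarith

/-- the cube root -/
def cr (s : ℝ) : ℝ := s ^ ((1 : ℝ) / 3)

lemma cr_pos {s : ℝ} (hs : 0 < s) : 0 < cr s := Real.rpow_pos_of_pos hs _

lemma cr_cube {s : ℝ} (hs : 0 < s) : cr s ^ 3 = s := by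
  unfold cr
  rw [← Real.rpow_natCast, ← Real.rpow_mul hs.le]
  norm_num

/-- the roots -/
def rt (n : ℕ) (A : Fin (n + 1) → ℝ) (p : Fin 3 × Fin (n + 1)) : ℂ :=
  3 * (om ^ (p.1 : ℕ) * (cr (SS n A p.2) : ℂ)) ^ 2

lemma rt_inj (n : ℕ) (A : Fin (n + 1) → ℝ) (hpos : ∀ i, 0 < A i) (hinj : Function.Injective A)
    (hlast : ∀ i, i ≠ Fin.last n → A i < A (Fin.last n)) : Function.Injective (rt n A) := by
  rintro ⟨j, k⟩ ⟨j', l⟩ h
  simp only [rt] at h
  have hk := cr_pos (SS_pos n A hpos hlast k)
  have hl := cr_pos (SS_pos n A hpos hlast l)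
  have h1 : (om ^ (j : ℕ) * (cr (SS n A k) : ℂ)) ^ 2 = (om ^ (j' : ℕ) * (cr (SS n A l) : ℂ)) ^ 2 :=
    mul_left_cancel₀ (by norm_num) h
  have h2 : cr (SS n A k) ^ 2 = cr (SS n A l) ^ 2 := by
    have h3 := congrArg (fun z : ℂ => ‖z‖) h1
    simp only [norm_pow, norm_mul, norm_om, one_pow, one_mul, Complex.norm_real,
      Real.norm_eq_abs, sq_abs] at h3
    exact h3
  have h3 : cr (SS n A k) = cr (SS n A l) := by
    exact (pow_left_inj₀ hk.le hl.le (by norm_num)).1 h2
  have h4 : SS n A k = SS n A l := by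
    rw [← cr_cube (SS_pos n A hpos hlast k), ← cr_cube (SS_pos n A hpos hlast l), h3]
  have h5 : k = l := SS_inj n A hpos hinj h4
  subst h5
  rw [mul_pow, mul_pow] at h1
  have h6 : ((cr (SS n A k) : ℂ)) ^ 2 ≠ 0 := by
    apply pow_ne_zero
    exact_mod_cast hk.ne'
  have h7 := mul_right_cancel₀ h6 h1
  rw [← pow_mul, ← pow_mul, mul_comm (j : ℕ), mul_comm (j' : ℕ), pow_mul, pow_mul] at h7
  have h8 : IsPrimitiveRoot (om ^ 2) 3 := om_prim.pow_of_coprime 2 (by norm_num)
  have h9 := h8.pow_inj j.2 j'.2 h7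
  simp only [Prod.mk.injEq, and_true]
  exact Fin.ext h9

/-- **The Fermat cubic.** -/
theorem fermat_vanish (n : ℕ) (hn : 1 ≤ n) (D : MvPolynomial (Fin (n + 1 + 1)) ℂ)
    (hD : D.totalDegree ≤ n + 4)
    (h : ∀ x : Fin (n + 1 + 1) → ℂ, x 0 ≠ 0 → ∑ i, x i ^ 3 = 0 →
      eval (fun i => 3 * x i ^ 2) D = 0) : D = 0 := by
  set s : Fin (n + 1 + 1) → Set ℂ := Fin.cons (α := fun _ => Set ℂ) Set.univ
    (fun i : Fin (n + 1) => (fun a : ℝ => (3 * (a : ℂ) ^ 2)) ''
      Set.Ioo ((i : ℕ) + 1 : ℝ) ((i : ℕ) + 2 : ℝ)) with hs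
  have hsinf : ∀ i, (s i).Infinite := by
    intro i
    refine Fin.cases ?_ (fun i => ?_) i
    · simp only [hs, Fin.cons_zero]
      exact Set.infinite_univ
    · simp only [hs, Fin.cons_succ]
      apply Set.Infinite.image
      · intro a ha b hb hab
        have ha0 : 0 < a := by
          have := ha.1
          have h0 : (0 : ℝ) ≤ ((i : ℕ) : ℝ) := Nat.cast_nonneg _
          linarith
        have hb0 : 0 < b := by
          have := hb.1
          have h0 : (0 : ℝ) ≤ ((i : ℕ) : ℝ) := Nat.cast_nonneg _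
          linarith
        have h1 : (a : ℂ) ^ 2 = (b : ℂ) ^ 2 := mul_left_cancel₀ (by norm_num) hab
        have h2 : a ^ 2 = b ^ 2 := by exact_mod_cast h1
        exact (pow_left_inj₀ ha0.le hb0.le (by norm_num)).1 h2
      · exact Set.Ioo_infinite (by linarith)
  apply funext_set s hsinf
  intro y hy
  rw [map_zero]
  have hy' : ∀ i : Fin (n + 1), ∃ a : ℝ, a ∈ Set.Ioo ((i : ℕ) + 1 : ℝ) ((i : ℕ) + 2 : ℝ) ∧
      (3 * (a : ℂ) ^ 2) = y i.succ := by
    intro i
    have := hy i.succ (Set.mem_univ _)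
    simp only [hs, Fin.cons_succ] at this
    exact this
  choose a ha hay using hy'
  have hapos : ∀ i, 0 < a i := fun i => by
    have := (ha i).1
    have h0 : (0 : ℝ) ≤ ((i : ℕ) : ℝ) := Nat.cast_nonneg _
    linarith
  have hamono : StrictMono a := by
    intro i j hij
    have h1 := (ha i).2
    have h2 := (ha j).1
    have h3 : ((i : ℕ) : ℝ) + 1 ≤ ((j : ℕ) : ℝ) := by exact_mod_cast hij
    linarith
  set A : Fin (n + 1) → ℝ := fun i => a i ^ 3 with hA
  have hAmono : StrictMono A := by
    intro i j hij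
    exact pow_lt_pow_left₀ (hamono hij) (hapos i).le (by norm_num)
  have hApos : ∀ i, 0 < A i := fun i => pow_pos (hapos i) 3
  have hAlast : ∀ i, i ≠ Fin.last n → A i < A (Fin.last n) := by
    intro i hi
    exact hAmono (lt_of_le_of_ne (Fin.le_last i) hi)
  have hyc : y = Fin.cons (y 0) (fun i => y i.succ) := by
    funext i
    refine Fin.cases ?_ (fun i => ?_) i
    · simp
    · simp
  rw [hyc, eval_eq_eval_mv_eval']
  have hp : Polynomial.map (eval fun i : Fin (n + 1) => y i.succ) (finSuccEquiv ℂ (n + 1) D) = 0 := by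
    apply Polynomial.eq_zero_of_natDegree_lt_card_of_eval_eq_zero _
      (rt_inj n A hApos hAmono.injective hAlast)
    · rintro ⟨j, k⟩
      rw [← eval_eq_eval_mv_eval']
      -- the point
      set x : Fin (n + 1 + 1) → ℂ := Fin.cons (α := fun _ => ℂ)
        (-(om ^ (j : ℕ) * (cr (SS n A k) : ℂ)))
        (fun i : Fin (n + 1) => if i = k ∧ k ≠ Fin.last n then -(a i : ℂ) else (a i : ℂ)) with hx
      have hcpos := cr_pos (SS_pos n A hApos hAlast k)
      have hx0 : x 0 ≠ 0 := by
        simp only [hx, Fin.cons_zero]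
        apply neg_ne_zero.2
        apply mul_ne_zero
        · apply pow_ne_zero
          exact om_prim.ne_zero (by norm_num)
        · exact_mod_cast hcpos.ne'
      have hxs : ∑ i, x i ^ 3 = 0 := by
        rw [Fin.sum_univ_succ]
        simp only [hx, Fin.cons_zero, Fin.cons_succ]
        have h1 : (-(om ^ (j : ℕ) * (cr (SS n A k) : ℂ))) ^ 3 = -((SS n A k : ℝ) : ℂ) := by
          have h2 : (om ^ (j : ℕ)) ^ 3 = 1 := by
            rw [← pow_mul, mul_comm, pow_mul, om_prim.pow_eq_one, one_pow]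
          have h3 : ((cr (SS n A k) : ℝ) : ℂ) ^ 3 = ((SS n A k : ℝ) : ℂ) := by
            have := cr_cube (SS_pos n A hApos hAlast k)
            exact_mod_cast this
          rw [neg_pow, mul_pow, h2, h3]
          norm_num
        have h4 : ∑ i : Fin (n + 1), (if i = k ∧ k ≠ Fin.last n then -(a i : ℂ) else (a i : ℂ)) ^ 3
            = ((SS n A k : ℝ) : ℂ) := by
          unfold SS BB
          push_cast
          have h5 : ∀ i : Fin (n + 1), (if i = k ∧ k ≠ Fin.last n then -(a i : ℂ) else (a i : ℂ)) ^ 3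
              = (a i : ℂ) ^ 3 - (if i = k then (2 * (if k = Fin.last n then 0 else (a i : ℂ) ^ 3)) else 0) := by
            intro i
            by_cases hi : i = k
            · by_cases hk : k = Fin.last n
              · simp [hi, hk]
              · simp only [hi, hk, ne_eq, not_false_eq_true, and_self, if_true, if_false]
                ring
            · simp [hi]
          rw [Finset.sum_congr rfl (fun i _ => h5 i), Finset.sum_sub_distrib]
          rw [Finset.sum_ite_eq' Finset.univ k]
          simp only [Finset.mem_univ, if_true, hA]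
          push_cast
          by_cases hk : k = Fin.last n
          · simp [hk]
          · simp [hk]
        rw [h1, h4]
        ring
      have := h x hx0 hxs
      have hxy : (fun i => 3 * x i ^ 2) = (Fin.cons (rt n A (j, k)) (fun i => y i.succ) :
          Fin (n + 1 + 1) → ℂ) := by
        funext i
        refine Fin.cases ?_ (fun i => ?_) i
        · simp only [hx, Fin.cons_zero, rt]
          ring
        · simp only [hx, Fin.cons_succ]
          rw [← hay i]
          split_ifs <;> ring
      rw [hxy] at this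
      exact this
    · rw [Fintype.card_prod, Fintype.card_fin, Fintype.card_fin]
      calc _ ≤ (finSuccEquiv ℂ (n + 1) D).natDegree := Polynomial.natDegree_map_le
        _ = degreeOf 0 D := natDegree_finSuccEquiv D
        _ ≤ D.totalDegree := degreeOf_le_totalDegree D 0
        _ ≤ n + 4 := hD
        _ < 3 * (n + 1) := by omega
  rw [hp, Polynomial.eval_zero]

end

end Pool.Agent.TH238.QP
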