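import Mathlib
import Pool.Agent.TH238.QP.Fermat

/-!
# Polynomials of small degree on the dual variety of a general cubic

For `n ≥ 1` there is a polynomial `P` in the coefficients of the cubic forms in `n + 2` variables, not
identically zero, such that for every cubic form `F` with `P (F) ≠ 0` and every form `D ≠ 0` of degree at most
`n + 4` the form `x_0 ^ 3 * D (∂F)` is not divisible by `F`.
-/

open MvPolynomial

namespace Pool.Agent.TH238.QP

noncomputable section

/-- exponents of degree `d` -/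
def Mon (n d : ℕ) : Finset (Fin (n + 1 + 1) →₀ ℕ) := Finset.finsuppAntidiag Finset.univ d

lemma mem_Mon {n d : ℕ} {β : Fin (n + 1 + 1) →₀ ℕ} : β ∈ Mon n d ↔ β.degree = d := by
  unfold Mon
  rw [Finset.mem_finsuppAntidiag]
  constructor
  · rintro ⟨h, _⟩
    rw [Finsupp.degree_eq_sum]
    exact h
  · intro h
    refine ⟨?_, Finset.subset_univ _⟩
    rw [Finsupp.degree_eq_sum] at h
    exact h

lemma sum_Mon {R : Type*} [CommSemiring R] {n d : ℕ} {D : MvPolynomial (Fin (n + 1 + 1)) R}
    (hD : D.IsHomogeneous d) : D = ∑ β ∈ Mon n d, monomial β (D.coeff β) := by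
  conv_lhs => rw [D.as_sum]
  apply Finset.sum_subset
  · intro β hβ
    rw [mem_Mon]
    have := hD (mem_support_iff.1 hβ)
    rw [← this, Finsupp.degree_eq_weight_one]
    rfl
  · intro β _ hβ
    rw [notMem_support_iff.1 hβ, monomial_zero]

abbrev Rc (n : ℕ) := MvPolynomial ((Fin (n + 1 + 1)) →₀ ℕ) ℂ

/-- the universal cubic -/
def univCubic (n : ℕ) : MvPolynomial (Fin (n + 1 + 1)) (Rc n) :=
  ∑ α ∈ Mon n 3, monomial α (X α)

lemma map_univCubic (n : ℕ) (F : MvPolynomial (Fin (n + 1 + 1)) ℂ) (hF : F.IsHomogeneous 3) :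
    map (eval (fun m => F.coeff m)) (univCubic n) = F := by
  conv_rhs => rw [sum_Mon hF]
  unfold univCubic
  rw [map_sum]
  apply Finset.sum_congr rfl
  intro α _
  rw [map_monomial, eval_X]

/-- product of powers of the partial derivatives -/
def dpow {R : Type*} [CommRing R] (n : ℕ) (F : MvPolynomial (Fin (n + 1 + 1)) R)
    (β : Fin (n + 1 + 1) →₀ ℕ) : MvPolynomial (Fin (n + 1 + 1)) R :=
  ∏ i, (pderiv i F) ^ (β i)

lemma map_dpow {R S : Type*} [CommRing R] [CommRing S] (φ : R →+* S) (n : ℕ)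
    (F : MvPolynomial (Fin (n + 1 + 1)) R) (β : Fin (n + 1 + 1) →₀ ℕ) :
    map φ (dpow n F β) = dpow n (map φ F) β := by
  unfold dpow
  rw [map_prod]
  apply Finset.prod_congr rfl
  intro i _
  rw [map_pow, pderiv_map]

/-- the matrix -/
def matA (n r : ℕ) : Matrix (Mon n (2 * r + 3)) (Mon n r ⊕ Mon n (2 * r)) (Rc n) :=
  fun γ b => match b with
    | Sum.inl β => coeff γ.1 (X 0 ^ 3 * dpow n (univCubic n) β.1)
    | Sum.inr β => - coeff γ.1 (univCubic n * monomial β.1 1)

/-- the form with given coefficients -/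
def form (n d : ℕ) (v : Mon n d → ℂ) : MvPolynomial (Fin (n + 1 + 1)) ℂ :=
  ∑ β : Mon n d, monomial β.1 (v β)

lemma form_hom (n d : ℕ) (v : Mon n d → ℂ) : (form n d v).IsHomogeneous d := by
  unfold form
  apply IsHomogeneous.sum
  intro β _
  exact isHomogeneous_monomial _ (mem_Mon.1 β.2)

lemma coeff_form (n d : ℕ) (v : Mon n d → ℂ) (β : Mon n d) : coeff β.1 (form n d v) = v β := by
  unfold form
  rw [coeff_sum]
  rw [Finset.sum_eq_single β]
  · rw [coeff_monomial, if_pos rfl]
  · intro b _ hb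
    rw [coeff_monomial, if_neg]
    intro h
    exact hb (Subtype.ext h)
  · intro h
    exact absurd (Finset.mem_univ _) h

lemma form_coeff (n d : ℕ) (D : MvPolynomial (Fin (n + 1 + 1)) ℂ) (hD : D.IsHomogeneous d) :
    form n d (fun β => D.coeff β.1) = D := by
  conv_rhs => rw [sum_Mon hD]
  unfold form
  rw [← Finset.sum_coe_sort (Mon n d) (fun β => monomial β (D.coeff β))]

lemma aeval_form (n d : ℕ) (v : Mon n d → ℂ) (F : MvPolynomial (Fin (n + 1 + 1)) ℂ) :
    aeval (fun i => pderiv i F) (form n d v) = ∑ β : Mon n d, C (v β) * dpow n F β.1 := by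
  unfold form dpow
  rw [map_sum]
  apply Finset.sum_congr rfl
  intro β _
  rw [aeval_monomial, Finsupp.prod_fintype _ _ (fun i => by simp)]
  rfl

lemma mono_eq {τ : Type*} (β : τ →₀ ℕ) (c : ℂ) :
    (monomial β c : MvPolynomial τ ℂ) = C c * monomial β 1 := by
  rw [C_mul_monomial, mul_one]

lemma eval_aeval {τ κ : Type*} (x : κ → ℂ) (f : τ → MvPolynomial κ ℂ) (D : MvPolynomial τ ℂ) :
    eval x (aeval f D) = eval (fun i => eval x (f i)) D := by
  induction D using MvPolynomial.induction_on with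
  | C a => simp
  | add p q hp hq => rw [map_add, map_add, map_add, hp, hq]
  | mul_X p i hp => rw [map_mul, map_mul, map_mul, hp, aeval_X, eval_X]

lemma matA_mulVec (n r : ℕ) (F : MvPolynomial (Fin (n + 1 + 1)) ℂ) (hF : F.IsHomogeneous 3)
    (v : Mon n r ⊕ Mon n (2 * r) → ℂ) (γ : Mon n (2 * r + 3)) :
    ((matA n r).map (eval (fun m => F.coeff m))).mulVec v γ =
      coeff γ.1 (X 0 ^ 3 * aeval (fun i => pderiv i F) (form n r (fun β => v (Sum.inl β))) -
        F * form n (2 * r) (fun β => v (Sum.inr β))) := by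
  rw [Matrix.mulVec, dotProduct, Fintype.sum_sum_type]
  rw [coeff_sub, sub_eq_add_neg]
  congr 1
  · rw [aeval_form, Finset.mul_sum, coeff_sum]
    apply Finset.sum_congr rfl
    intro β _
    rw [Matrix.map_apply]
    simp only [matA]
    rw [← coeff_map, map_mul, map_pow, map_X, map_dpow, map_univCubic n F hF]
    rw [mul_left_comm, coeff_C_mul, mul_comm]
  · unfold form
    rw [Finset.mul_sum, coeff_sum, ← Finset.sum_neg_distrib]
    apply Finset.sum_congr rfl
    intro β _
    rw [Matrix.map_apply]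
    simp only [matA]
    rw [map_neg, ← coeff_map, map_mul, map_univCubic n F hF, map_monomial, map_one]
    rw [mono_eq β.1 (v (Sum.inr β)), mul_left_comm, coeff_C_mul]
    ring

lemma generic_inj {κ Γ B : Type*} [Fintype Γ] [Fintype B] [DecidableEq Γ] [DecidableEq B]
    (A : Matrix Γ B (MvPolynomial κ ℂ)) (c0 : κ → ℂ)
    (h0 : ∀ v : B → ℂ, (A.map (eval c0)).mulVec v = 0 → v = 0) :
    ∃ Φ : MvPolynomial κ ℂ, eval c0 Φ ≠ 0 ∧ ∀ c : κ → ℂ, eval c Φ ≠ 0 →
      ∀ v : B → ℂ, (A.map (eval c)).mulVec v = 0 → v = 0 := by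
  have hker : LinearMap.ker (Matrix.mulVecLin (A.map (eval c0))) = ⊥ := by
    rw [LinearMap.ker_eq_bot']
    intro v hv
    exact h0 v hv
  obtain ⟨g, hg⟩ := LinearMap.exists_leftInverse_of_injective _ hker
  set L0 : Matrix B Γ ℂ := LinearMap.toMatrix' g with hL0
  have hL : L0 * A.map (eval c0) = 1 := by
    have h1 := congrArg LinearMap.toMatrix' hg
    rw [LinearMap.toMatrix'_comp, LinearMap.toMatrix'_id] at h1
    rw [← h1, hL0]
    congr 1
    exact (LinearMap.toMatrix'_toLin' _).symm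
  set L1 : Matrix B Γ (MvPolynomial κ ℂ) := L0.map C with hL1
  set LA : Matrix B B (MvPolynomial κ ℂ) := L1 * A with hLA
  have hdet : ∀ c : κ → ℂ, eval c LA.det = (L0 * A.map (eval c)).det := by
    intro c
    rw [RingHom.map_det]
    congr 1
    ext i j
    simp [Matrix.mul_apply, hLA, hL1]
  refine ⟨LA.det, ?_, ?_⟩
  · rw [hdet, hL, Matrix.det_one]
    exact one_ne_zero
  · intro c hc v hv
    rw [hdet] at hc
    apply Matrix.eq_zero_of_mulVec_eq_zero hc
    rw [← Matrix.mulVec_mulVec, hv, Matrix.mulVec_zero]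

/-- the Fermat cubic -/
def fermat (n : ℕ) : MvPolynomial (Fin (n + 1 + 1)) ℂ := ∑ i, X i ^ 3

lemma fermat_hom (n : ℕ) : (fermat n).IsHomogeneous 3 := by
  unfold fermat
  apply IsHomogeneous.sum
  intro i _
  have := (isHomogeneous_X ℂ i).pow 3
  simpa using this

lemma eval_fermat (n : ℕ) (x : Fin (n + 1 + 1) → ℂ) : eval x (fermat n) = ∑ i, x i ^ 3 := by
  unfold fermat
  rw [map_sum]
  apply Finset.sum_congr rfl
  intro i _
  rw [map_pow, eval_X]

lemma fermat_ne_zero (n : ℕ) : fermat n ≠ 0 := by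
  intro h
  have h1 := eval_fermat n (fun _ => 1)
  rw [h, map_zero] at h1
  simp at h1
  have h2 : ((n : ℂ) + 1 + 1) ≠ 0 := by exact_mod_cast Nat.succ_ne_zero (n + 1)
  exact h2 h1.symm

lemma pderiv_fermat (n : ℕ) (i : Fin (n + 1 + 1)) : pderiv i (fermat n) = C 3 * X i ^ 2 := by
  unfold fermat
  rw [map_sum, Finset.sum_eq_single i]
  · rw [pderiv_pow, pderiv_X_self, mul_one]
    norm_num
    exact (map_ofNat C 3).symm
  · intro j _ hj
    rw [pderiv_pow, pderiv_X_of_ne hj, mul_zero]
  · intro h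
    exact absurd (Finset.mem_univ _) h

lemma fermat_inj (n : ℕ) (hn : 1 ≤ n) (r : ℕ) (hr : r ≤ n + 4)
    (D E : MvPolynomial (Fin (n + 1 + 1)) ℂ) (hD : D.IsHomogeneous r)
    (h : X 0 ^ 3 * aeval (fun i => pderiv i (fermat n)) D = fermat n * E) : D = 0 ∧ E = 0 := by
  have hD0 : D = 0 := by
    apply fermat_vanish n hn D
    · exact hD.totalDegree_le.trans hr
    · intro x hx0 hx
      have h1 := congrArg (eval x) h
      rw [map_mul, map_mul, eval_fermat, hx, zero_mul, map_pow, eval_X] at h1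
      have h2 : eval x (aeval (fun i => pderiv i (fermat n)) D) = eval (fun i => 3 * x i ^ 2) D := by
        rw [eval_aeval]
        congr 1
        congr 1
        funext i
        rw [pderiv_fermat]
        simp
      rw [h2] at h1
      rcases mul_eq_zero.1 h1 with h3 | h3
      · exact absurd h3 (pow_ne_zero 3 hx0)
      · exact h3
  refine ⟨hD0, ?_⟩
  rw [hD0, map_zero, mul_zero] at h
  rcases mul_eq_zero.1 h.symm with h1 | h1
  · exact absurd h1 (fermat_ne_zero n)
  · exact h1

theorem generic_r (n : ℕ) (hn : 1 ≤ n) (r : ℕ) (hr : r ≤ n + 4) :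
    ∃ Φ : Rc n, eval (fun m => (fermat n).coeff m) Φ ≠ 0 ∧
      ∀ F : MvPolynomial (Fin (n + 1 + 1)) ℂ, F.IsHomogeneous 3 → eval (fun m => F.coeff m) Φ ≠ 0 →
        ∀ D E : MvPolynomial (Fin (n + 1 + 1)) ℂ, D.IsHomogeneous r → E.IsHomogeneous (2 * r) →
          X 0 ^ 3 * aeval (fun i => pderiv i F) D = F * E → D = 0 := by
  obtain ⟨Φ, h1, h2⟩ := generic_inj (matA n r) (fun m => (fermat n).coeff m) (by
    intro v hv
    have h3 : X 0 ^ 3 * aeval (fun i => pderiv i (fermat n)) (form n r (fun β => v (Sum.inl β))) -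
        fermat n * form n (2 * r) (fun β => v (Sum.inr β)) = 0 := by
      have hhom : (X 0 ^ 3 * aeval (fun i => pderiv i (fermat n)) (form n r (fun β => v (Sum.inl β))) -
        fermat n * form n (2 * r) (fun β => v (Sum.inr β))).IsHomogeneous (2 * r + 3) := by
        apply IsHomogeneous.sub
        · have h4 := (form_hom n r (fun β => v (Sum.inl β))).aeval (fun i => pderiv i (fermat n))
            (n := 2) (fun i => (fermat_hom n).pderiv)
          have h5 := ((isHomogeneous_X ℂ (0 : Fin (n + 1 + 1))).pow 3).mul h4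
          have h6 : 1 * 3 + 2 * r = 2 * r + 3 := by ring
          rw [h6] at h5
          exact h5
        · have h4 := (fermat_hom n).mul (form_hom n (2 * r) (fun β => v (Sum.inr β)))
          have h6 : 3 + 2 * r = 2 * r + 3 := by ring
          rw [h6] at h4
          exact h4
      rw [sum_Mon hhom]
      apply Finset.sum_eq_zero
      intro γ hγ
      have h4 := congrFun hv ⟨γ, hγ⟩
      rw [matA_mulVec n r (fermat n) (fermat_hom n)] at h4
      rw [h4, Pi.zero_apply, monomial_zero]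
    obtain ⟨h5, h6⟩ := fermat_inj n hn r hr _ _ (form_hom n r _) (sub_eq_zero.1 h3)
    funext b
    rcases b with β | β
    · rw [← coeff_form n r (fun β => v (Sum.inl β)) β, h5]
      simp
    · rw [← coeff_form n (2 * r) (fun β => v (Sum.inr β)) β, h6]
      simp)
  refine ⟨Φ, h1, ?_⟩
  intro F hF hΦ D E hD hE hDE
  have h3 := h2 _ hΦ (Sum.elim (fun β => D.coeff β.1) (fun β => E.coeff β.1)) (by
    funext γ
    rw [matA_mulVec n r F hF]
    simp only [Sum.elim_inl, Sum.elim_inr]
    rw [form_coeff n r D hD, form_coeff n (2 * r) E hE, hDE, sub_self]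
    simp)
  rw [← form_coeff n r D hD]
  have h4 : (fun β : Mon n r => D.coeff β.1) = fun _ => 0 := by
    funext β
    exact congrFun h3 (Sum.inl β)
  rw [h4]
  unfold form
  simp

/-- **A general cubic form.** -/
theorem generic_cubic (n : ℕ) (hn : 1 ≤ n) :
    ∃ P : Rc n, eval (fun m => (fermat n).coeff m) P ≠ 0 ∧
      ∀ F : MvPolynomial (Fin (n + 1 + 1)) ℂ, F.IsHomogeneous 3 → eval (fun m => F.coeff m) P ≠ 0 →
        ∀ r ≤ n + 4, ∀ D E : MvPolynomial (Fin (n + 1 + 1)) ℂ, D.IsHomogeneous r →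
          E.IsHomogeneous (2 * r) → X 0 ^ 3 * aeval (fun i => pderiv i F) D = F * E → D = 0 := by
  choose Φ h1 h2 using fun r : Fin (n + 5) => generic_r n hn r (by omega)
  refine ⟨∏ r, Φ r, ?_, ?_⟩
  · rw [map_prod]
    exact Finset.prod_ne_zero_iff.2 fun r _ => h1 r
  · intro F hF hP r hr D E hD hE h
    rw [map_prod] at hP
    exact h2 ⟨r, by omega⟩ F hF (Finset.prod_ne_zero_iff.1 hP _ (Finset.mem_univ _)) D E hD hE h

end

end Pool.Agent.TH238.QP
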