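import Mathlib

/-!
# Linear algebra for linear spaces of symmetric matrices
-/

open MvPolynomial

namespace Pool.Agent.TH238.QP

noncomputable section

variable {ι κ : Type*} [Fintype ι] [Fintype κ] [DecidableEq ι] [DecidableEq κ]

/-- the member of the linear system with parameter `x` -/
def MM {R : Type*} [CommRing R] (A : ι → Matrix κ κ R) (x : ι → R) : Matrix κ κ R := ∑ i, x i • A i

lemma MM_add (A : ι → Matrix κ κ ℂ) (x y : ι → ℂ) : MM A (x + y) = MM A x + MM A y := by
  unfold MM
  rw [← Finset.sum_add_distrib]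
  apply Finset.sum_congr rfl
  intro i _
  rw [Pi.add_apply, add_smul]

lemma MM_smul (A : ι → Matrix κ κ ℂ) (c : ℂ) (y : ι → ℂ) : MM A (c • y) = c • MM A y := by
  unfold MM
  rw [Finset.smul_sum]
  apply Finset.sum_congr rfl
  intro i _
  rw [Pi.smul_apply, smul_eq_mul, mul_smul]

lemma MM_transpose (A : ι → Matrix κ κ ℂ) (hA : ∀ i, (A i).transpose = A i) (x : ι → ℂ) :
    (MM A x).transpose = MM A x := by
  unfold MM
  rw [Matrix.transpose_sum]
  apply Finset.sum_congr rfl
  intro i _
  rw [Matrix.transpose_smul, hA]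

/-- At a point of maximal rank the kernel is isotropic for all members. -/
theorem isotropic (A : ι → Matrix κ κ ℂ) (hA : ∀ i, (A i).transpose = A i) (x : ι → ℂ)
    (hmax : ∀ y, (MM A y).rank ≤ (MM A x).rank) (u : κ → ℂ) (hu : (MM A x).mulVec u = 0)
    (y : ι → ℂ) : dotProduct u ((MM A y).mulVec u) = 0 := by
  by_contra hne
  set M0 := MM A x with hM0
  set M1 := MM A y with hM1
  set f0 := M0.mulVecLin with hf0
  set r := M0.rank with hr
  have hr' : Module.finrank ℂ (LinearMap.range f0) = r := rfl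
  let b := Module.finBasisOfFinrankEq ℂ (LinearMap.range f0) hr'
  have hv : ∀ j : Fin r, ∃ v : κ → ℂ, f0 v = (b j : κ → ℂ) := fun j => (b j).2
  choose v hv using hv
  -- the family
  let w : ℂ → (Option (Fin r)) → (κ → ℂ) := fun c o =>
    match o with
    | none => M1.mulVec u
    | some j => M0.mulVec (v j) + c • M1.mulVec (v j)
  have hw0 : LinearIndependent ℂ (w 0) := by
    rw [linearIndependent_option]
    constructor
    · have h1 : (w 0 ∘ some) = fun j => (b j : κ → ℂ) := by
        funext j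
        simp only [w, Function.comp, zero_smul, add_zero]
        exact hv j
      rw [h1]
      exact b.linearIndependent.map' (Submodule.subtype _) (Submodule.ker_subtype _)
    · intro hmem
      apply hne
      have h2 : Submodule.span ℂ (Set.range (w 0 ∘ some)) ≤ LinearMap.range f0 := by
        rw [Submodule.span_le]
        rintro z ⟨j, rfl⟩
        simp only [w, Function.comp, zero_smul, add_zero]
        exact ⟨v j, rfl⟩
      obtain ⟨z, hz⟩ := h2 hmem
      have h3 : w 0 none = M1.mulVec u := rfl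
      rw [h3] at hz
      rw [← hz, hf0, Matrix.mulVecLin_apply, Matrix.dotProduct_mulVec]
      have h4 : Matrix.vecMul u M0 = 0 := by
        rw [← Matrix.mulVec_transpose, hM0, MM_transpose A hA, hu]
      rw [h4, zero_dotProduct]
  have hcont : Continuous w := by
    apply continuous_pi
    intro o
    rcases o with _ | j
    · exact continuous_const
    · exact continuous_const.add (continuous_id.smul continuous_const)
  have hopen : IsOpen {c : ℂ | LinearIndependent ℂ (w c)} := by
    have := isOpen_setOfPred_linearIndependent (𝕜 := ℂ) (ι := Option (Fin r)) (E := κ → ℂ)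
    exact this.preimage hcont
  have hev : ∀ᶠ c in nhds (0 : ℂ), LinearIndependent ℂ (w c) := hopen.mem_nhds hw0
  have hev2 : ∀ᶠ c in nhdsWithin (0 : ℂ) {0}ᶜ, LinearIndependent ℂ (w c) :=
    hev.filter_mono nhdsWithin_le_nhds
  obtain ⟨c, hc, hc0⟩ := (hev2.and self_mem_nhdsWithin).exists
  have hc0' : c ≠ 0 := hc0
  -- all vectors are in the range
  have hrange : ∀ o, w c o ∈ LinearMap.range (MM A (x + c • y)).mulVecLin := by
    intro o
    rw [MM_add, MM_smul]
    rcases o with _ | j
    · refine ⟨c⁻¹ • u, ?_⟩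
      rw [Matrix.mulVecLin_apply, Matrix.mulVec_smul, Matrix.add_mulVec, ← hM0, hu, zero_add,
        Matrix.smul_mulVec, smul_smul, inv_mul_cancel₀ hc0', one_smul]
    · refine ⟨v j, ?_⟩
      rw [Matrix.mulVecLin_apply, Matrix.add_mulVec, Matrix.smul_mulVec]
  have hcard : Fintype.card (Option (Fin r)) ≤
      Module.finrank ℂ (LinearMap.range (MM A (x + c • y)).mulVecLin) := by
    set w' : Option (Fin r) → LinearMap.range (MM A (x + c • y)).mulVecLin :=
      fun o => ⟨w c o, hrange o⟩ with hw'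
    have h5 : LinearIndependent ℂ w' := by
      apply LinearIndependent.of_comp (Submodule.subtype _)
      exact hc
    exact h5.fintype_card_le_finrank
  rw [Fintype.card_option, Fintype.card_fin] at hcard
  have h6 := hmax (x + c • y)
  have h7 : (MM A (x + c • y)).rank =
    Module.finrank ℂ (LinearMap.range (MM A (x + c • y)).mulVecLin) := rfl
  omega

/-- a left inverse of an injective matrix -/
lemma left_inv {ρ : ℕ} (B : Matrix κ (Fin ρ) ℂ) (hB : ∀ v, B.mulVec v = 0 → v = 0) :
    ∃ L : Matrix (Fin ρ) κ ℂ, L * B = 1 := by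
  have hker : LinearMap.ker (Matrix.mulVecLin B) = ⊥ := by
    rw [LinearMap.ker_eq_bot']
    intro v hv
    exact hB v hv
  obtain ⟨g, hg⟩ := LinearMap.exists_leftInverse_of_injective _ hker
  refine ⟨LinearMap.toMatrix' g, ?_⟩
  have h1 := congrArg LinearMap.toMatrix' hg
  rw [LinearMap.toMatrix'_comp, LinearMap.toMatrix'_id] at h1
  rw [← h1]
  congr 1
  exact (LinearMap.toMatrix'_toLin' _).symm

/-- a compression with nonzero determinant -/
lemma compress (M : Matrix κ κ ℂ) (ρ : ℕ) (hρ : ρ ≤ M.rank) :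
    ∃ (B1 : Matrix (Fin ρ) κ ℂ) (B2 : Matrix κ (Fin ρ) ℂ), B1 * (M * B2) = 1 := by
  have hr' : Module.finrank ℂ (LinearMap.range M.mulVecLin) = M.rank := rfl
  let b := Module.finBasisOfFinrankEq ℂ (LinearMap.range M.mulVecLin) hr'
  have hv : ∀ j : Fin M.rank, ∃ v : κ → ℂ, M.mulVecLin v = (b j : κ → ℂ) := fun j => (b j).2
  choose v hv using hv
  set B2 : Matrix κ (Fin ρ) ℂ := Matrix.of fun k j => v (Fin.castLE hρ j) k with hB2
  obtain ⟨L, hL⟩ := left_inv (M * B2) (by
    intro c hc
    have h1 : LinearIndependent ℂ fun j : Fin ρ => (b (Fin.castLE hρ j) : κ → ℂ) := by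
      have h2 : LinearIndependent ℂ fun j => (b j : κ → ℂ) :=
        b.linearIndependent.map' (Submodule.subtype _) (Submodule.ker_subtype _)
      exact h2.comp _ (Fin.castLE_injective hρ)
    rw [Fintype.linearIndependent_iff] at h1
    funext j
    refine h1 c ?_ j
    rw [← hc]
    funext k
    rw [Finset.sum_apply, Matrix.mulVec, dotProduct]
    apply Finset.sum_congr rfl
    intro j _
    rw [Pi.smul_apply, ← hv, Matrix.mulVecLin_apply, smul_eq_mul, mul_comm]
    congr 1)
  exact ⟨L, B2, hL⟩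

lemma compress_det_zero (M : Matrix κ κ ℂ) (ρ : ℕ) (hρ : M.rank < ρ) (B1 : Matrix (Fin ρ) κ ℂ)
    (B2 : Matrix κ (Fin ρ) ℂ) : (B1 * (M * B2)).det = 0 := by
  by_contra h
  have h1 : IsUnit (B1 * (M * B2)) := (Matrix.isUnit_iff_isUnit_det _).2 (isUnit_iff_ne_zero.2 h)
  have h2 := Matrix.rank_of_isUnit _ h1
  rw [Fintype.card_fin] at h2
  have h3 := Matrix.rank_mul_le_right B1 (M * B2)
  have h4 := Matrix.rank_mul_le_left M B2
  omega

/-- the determinant of the compressed system as a form in the parameters -/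
def DD {ρ : ℕ} (A : ι → Matrix κ κ ℂ) (B1 : Matrix (Fin ρ) κ ℂ) (B2 : Matrix κ (Fin ρ) ℂ) :
    MvPolynomial ι ℂ :=
  Matrix.det (Matrix.of fun a b : Fin ρ => ∑ i, C ((B1 * (A i * B2)) a b) * X i)

lemma DD_hom {ρ : ℕ} (A : ι → Matrix κ κ ℂ) (B1 : Matrix (Fin ρ) κ ℂ) (B2 : Matrix κ (Fin ρ) ℂ) :
    (DD A B1 B2).IsHomogeneous ρ := by
  unfold DD
  rw [Matrix.det_apply]
  apply IsHomogeneous.sum
  intro σ _
  have h1 : (∏ a, (Matrix.of fun a b : Fin ρ => ∑ i, C ((B1 * (A i * B2)) a b) * X i) (σ a) a :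
      MvPolynomial ι ℂ).IsHomogeneous (∑ a : Fin ρ, 1) := by
    apply IsHomogeneous.prod
    intro a _
    rw [Matrix.of_apply]
    apply IsHomogeneous.sum
    intro i _
    have := (isHomogeneous_C ι ((B1 * (A i * B2)) (σ a) a)).mul (isHomogeneous_X ℂ i)
    simpa using this
  simp only [Finset.sum_const, Finset.card_univ, Fintype.card_fin, smul_eq_mul, mul_one] at h1
  rcases Int.units_eq_one_or (Equiv.Perm.sign σ) with h | h
  · rw [h, one_smul]
    exact h1
  · rw [h, Units.neg_smul, one_smul]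
    exact h1.neg

lemma compress_MM {ρ : ℕ} (A : ι → Matrix κ κ ℂ) (B1 : Matrix (Fin ρ) κ ℂ)
    (B2 : Matrix κ (Fin ρ) ℂ) (x : ι → ℂ) :
    B1 * (MM A x * B2) = ∑ i, x i • (B1 * (A i * B2)) := by
  unfold MM
  rw [Matrix.sum_mul, Matrix.mul_sum]
  apply Finset.sum_congr rfl
  intro i _
  rw [Matrix.smul_mul, Matrix.mul_smul]

lemma eval_DD {ρ : ℕ} (A : ι → Matrix κ κ ℂ) (B1 : Matrix (Fin ρ) κ ℂ) (B2 : Matrix κ (Fin ρ) ℂ)
    (x : ι → ℂ) : eval x (DD A B1 B2) = (B1 * (MM A x * B2)).det := by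
  unfold DD
  rw [RingHom.map_det]
  congr 1
  ext a b
  rw [RingHom.mapMatrix_apply, Matrix.map_apply, Matrix.of_apply, map_sum]
  rw [compress_MM, Matrix.sum_apply]
  apply Finset.sum_congr rfl
  intro i _
  rw [map_mul, eval_C, eval_X, Matrix.smul_apply, smul_eq_mul, mul_comm]

lemma exists_max_rank (A : ι → Matrix κ κ ℂ) : ∃ x, ∀ y, (MM A y).rank ≤ (MM A x).rank := by
  have hbdd : BddAbove (Set.range fun x => (MM A x).rank) := by
    refine ⟨Fintype.card κ, ?_⟩
    rintro _ ⟨x, rfl⟩
    exact Matrix.rank_le_card_width _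
  have hne : (Set.range fun x => (MM A x).rank).Nonempty := ⟨_, ⟨0, rfl⟩⟩
  obtain ⟨x, hx⟩ := Nat.sSup_mem hne hbdd
  refine ⟨x, fun y => ?_⟩
  have := le_csSup hbdd ⟨y, rfl⟩
  rw [← hx] at this
  exact this

end

end Pool.Agent.TH238.QP
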