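import Mathlib
import Pool.Agent.TH238.QP.Lin

/-!
# Maps given by polynomials of degree at most two into a cubic hypersurface

Let `F` be a cubic form in `n + 2` variables and `G_0, …, G_{n+1}` polynomials of degree at most two in any
number `N` of variables with `F (G) = 0`, not all zero. Then there is a form `D ≠ 0` of degree at most `n + 4`
with `D (∂F (G)) = 0`.
-/

open MvPolynomial

namespace Pool.Agent.TH238.QP

noncomputable section

/-- the coordinates `1, t_1, …, t_N` -/
def U (N : ℕ) : Fin (N + 1) → MvPolynomial (Fin N) ℂ := Fin.cons 1 X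

lemma U_zero (N : ℕ) : U N 0 = 1 := rfl

lemma U_succ (N : ℕ) (k : Fin N) : U N k.succ = X k := rfl

/-- the polynomial of a matrix -/
def qf {N : ℕ} (A : Matrix (Fin (N + 1)) (Fin (N + 1)) ℂ) : MvPolynomial (Fin N) ℂ :=
  ∑ a, ∑ b, C (A a b) * (U N a * U N b)

lemma qf_add {N : ℕ} (A B : Matrix (Fin (N + 1)) (Fin (N + 1)) ℂ) : qf (A + B) = qf A + qf B := by
  unfold qf
  rw [← Finset.sum_add_distrib]
  apply Finset.sum_congr rfl
  intro a _
  rw [← Finset.sum_add_distrib]
  apply Finset.sum_congr rfl
  intro b _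
  rw [Matrix.add_apply, map_add, add_mul]

lemma qf_smul {N : ℕ} (c : ℂ) (A : Matrix (Fin (N + 1)) (Fin (N + 1)) ℂ) : qf (c • A) = C c * qf A := by
  unfold qf
  rw [Finset.mul_sum]
  apply Finset.sum_congr rfl
  intro a _
  rw [Finset.mul_sum]
  apply Finset.sum_congr rfl
  intro b _
  rw [Matrix.smul_apply, smul_eq_mul, map_mul, mul_assoc]

lemma qf_single {N : ℕ} (a b : Fin (N + 1)) : qf (Matrix.single a b 1) = U N a * U N b := by
  unfold qf
  rw [Finset.sum_eq_single a]
  · rw [Finset.sum_eq_single b]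
    · rw [Matrix.single_apply_same, map_one, one_mul]
    · intro b' _ hb'
      rw [Matrix.single_apply_of_ne, map_zero, zero_mul]
      tauto
    · intro h
      exact absurd (Finset.mem_univ _) h
  · intro a' _ ha'
    apply Finset.sum_eq_zero
    intro b' _
    rw [Matrix.single_apply_of_ne, map_zero, zero_mul]
    tauto
  · intro h
    exact absurd (Finset.mem_univ _) h

def Rep {N : ℕ} (G : MvPolynomial (Fin N) ℂ) : Prop :=
  ∃ A : Matrix (Fin (N + 1)) (Fin (N + 1)) ℂ, A.transpose = A ∧ G = qf A

lemma Rep_add {N : ℕ} {G H : MvPolynomial (Fin N) ℂ} (hG : Rep G) (hH : Rep H) : Rep (G + H) := by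
  obtain ⟨A, hA, rfl⟩ := hG
  obtain ⟨B, hB, rfl⟩ := hH
  exact ⟨A + B, by rw [Matrix.transpose_add, hA, hB], (qf_add A B).symm⟩

lemma Rep_zero {N : ℕ} : Rep (0 : MvPolynomial (Fin N) ℂ) := by
  refine ⟨0, Matrix.transpose_zero, ?_⟩
  have := qf_smul (0 : ℂ) (0 : Matrix (Fin (N + 1)) (Fin (N + 1)) ℂ)
  rw [zero_smul, map_zero, zero_mul] at this
  exact this.symm

lemma Rep_sum {N : ℕ} {τ : Type*} (s : Finset τ) (G : τ → MvPolynomial (Fin N) ℂ)
    (h : ∀ i ∈ s, Rep (G i)) : Rep (∑ i ∈ s, G i) := by
  classical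
  induction s using Finset.induction_on with
  | empty => rw [Finset.sum_empty]; exact Rep_zero
  | insert i s hi ih =>
    rw [Finset.sum_insert hi]
    exact Rep_add (h i (Finset.mem_insert_self _ _))
      (ih fun j hj => h j (Finset.mem_insert_of_mem hj))

lemma Rep_mul {N : ℕ} (c : ℂ) (a b : Fin (N + 1)) : Rep (C c * (U N a * U N b)) := by
  refine ⟨c • ((1 / 2 : ℂ) • (Matrix.single a b 1 + Matrix.single b a 1)), ?_, ?_⟩
  · rw [Matrix.transpose_smul, Matrix.transpose_smul, Matrix.transpose_add, Matrix.transpose_single,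
      Matrix.transpose_single, add_comm (Matrix.single b a 1)]
  · rw [qf_smul, qf_smul, qf_add, qf_single, qf_single, mul_comm (U N b) (U N a), ← two_mul,
      ← mul_assoc (C (1 / 2)), ← map_ofNat C 2, ← map_mul]
    norm_num

lemma mono_one {N : ℕ} (β : Fin N →₀ ℕ) (hβ : β.degree ≤ 1) :
    ∃ a, (monomial β 1 : MvPolynomial (Fin N) ℂ) = U N a := by
  by_cases h0 : β = 0
  · exact ⟨0, by rw [h0, U_zero]; rfl⟩
  · obtain ⟨k, hk⟩ : ∃ k, β k ≠ 0 := by
      by_contra h
      push Not at h
      exact h0 (Finsupp.ext h)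
    refine ⟨k.succ, ?_⟩
    rw [U_succ]
    have h1 : β = Finsupp.single k 1 := by
      have h2 : β = Finsupp.single k 1 + (β - Finsupp.single k 1) := by
        rw [add_tsub_cancel_of_le]
        rw [Finsupp.single_le_iff]
        omega
      have h3 : (β - Finsupp.single k 1).degree = 0 := by
        have h4 := congrArg Finsupp.degree h2
        rw [map_add, Finsupp.degree_single] at h4
        omega
      rw [Finsupp.degree_eq_zero_iff] at h3
      rw [h3, add_zero] at h2
      exact h2
    rw [h1]
    rfl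

lemma mono_two {N : ℕ} (β : Fin N →₀ ℕ) (hβ : β.degree ≤ 2) :
    ∃ a b, (monomial β 1 : MvPolynomial (Fin N) ℂ) = U N a * U N b := by
  by_cases h0 : β = 0
  · exact ⟨0, 0, by rw [h0, U_zero, mul_one]; rfl⟩
  · obtain ⟨k, hk⟩ : ∃ k, β k ≠ 0 := by
      by_contra h
      push Not at h
      exact h0 (Finsupp.ext h)
    have h2 : β = Finsupp.single k 1 + (β - Finsupp.single k 1) := by
      rw [add_tsub_cancel_of_le]
      rw [Finsupp.single_le_iff]
      omega
    have h3 : (β - Finsupp.single k 1).degree ≤ 1 := by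
      have h4 := congrArg Finsupp.degree h2
      rw [map_add, Finsupp.degree_single] at h4
      omega
    obtain ⟨b, hb⟩ := mono_one _ h3
    refine ⟨k.succ, b, ?_⟩
    rw [← hb, U_succ, X, monomial_mul, one_mul]
    rw [← h2]

lemma rep {N : ℕ} (G : MvPolynomial (Fin N) ℂ) (h : G.totalDegree ≤ 2) : Rep G := by
  rw [G.as_sum]
  apply Rep_sum
  intro β hβ
  have h1 : β.degree ≤ 2 := by
    refine le_trans ?_ h
    have := le_totalDegree hβ
    rw [Finsupp.degree_eq_sum]
    rw [Finsupp.sum_fintype _ _ (fun _ => rfl)] at this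
    exact this
  obtain ⟨a, b, hab⟩ := mono_two β h1
  have h2 : (monomial β (coeff β G) : MvPolynomial (Fin N) ℂ) = C (coeff β G) * (U N a * U N b) := by
    rw [← hab, C_mul_monomial, mul_one]
  rw [h2]
  exact Rep_mul _ a b

lemma chain {τ κ : Type*} [Fintype τ] [DecidableEq τ]
    (δ : Derivation ℂ (MvPolynomial κ ℂ) (MvPolynomial κ ℂ))
    (G : τ → MvPolynomial κ ℂ) (F : MvPolynomial τ ℂ) :
    δ (aeval G F) = ∑ i, aeval G (pderiv i F) * δ (G i) := by
  induction F using MvPolynomial.induction_on with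
  | C a =>
    rw [aeval_C]
    simp
  | add p q hp hq =>
    rw [map_add, map_add, hp, hq, ← Finset.sum_add_distrib]
    apply Finset.sum_congr rfl
    intro i _
    rw [map_add, map_add, add_mul]
  | mul_X p j hp =>
    rw [map_mul, aeval_X, Derivation.leibniz, hp, smul_eq_mul, smul_eq_mul]
    have h1 : ∀ i, aeval G (pderiv i (p * X j)) * δ (G i) =
        G j * (aeval G (pderiv i p) * δ (G i)) + (if i = j then aeval G p * δ (G j) else 0) := by
      intro i
      rw [Derivation.leibniz, smul_eq_mul, smul_eq_mul, map_add, map_mul, map_mul, aeval_X]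
      by_cases hij : i = j
      · subst hij
        rw [pderiv_X_self, map_one, if_pos rfl]
        ring
      · rw [pderiv_X_of_ne (Ne.symm hij), map_zero, if_neg hij]
        ring
    rw [Finset.sum_congr rfl (fun i _ => h1 i), Finset.sum_add_distrib, ← Finset.mul_sum,
      Finset.sum_ite_eq' Finset.univ j]
    simp only [Finset.mem_univ, if_true]
    ring

/-- the rows -/
def row {n N : ℕ} (A : Fin (n + 1 + 1) → Matrix (Fin (N + 1)) (Fin (N + 1)) ℂ)
    (ξ : Fin (n + 1 + 1) → MvPolynomial (Fin N) ℂ) (a : Fin (N + 1)) : MvPolynomial (Fin N) ℂ :=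
  ∑ i, ∑ b, ξ i * (C (A i a b) * U N b)

lemma deriv_qf {N : ℕ} (δ : Derivation ℂ (MvPolynomial (Fin N) ℂ) (MvPolynomial (Fin N) ℂ))
    (A : Matrix (Fin (N + 1)) (Fin (N + 1)) ℂ) (hA : A.transpose = A) :
    δ (qf A) = 2 * ∑ a, ∑ b, C (A a b) * U N b * δ (U N a) := by
  unfold qf
  rw [map_sum]
  have h1 : ∀ a, δ (∑ b, C (A a b) * (U N a * U N b)) =
      (∑ b, C (A a b) * U N b * δ (U N a)) + ∑ b, C (A a b) * U N a * δ (U N b) := by
    intro a
    rw [map_sum, ← Finset.sum_add_distrib]
    apply Finset.sum_congr rfl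
    intro b _
    rw [Derivation.leibniz, Derivation.leibniz, derivation_C]
    simp only [smul_eq_mul, mul_zero, add_zero]
    ring
  rw [Finset.sum_congr rfl (fun a _ => h1 a), Finset.sum_add_distrib]
  have h2 : ∑ a, ∑ b, C (A a b) * U N a * δ (U N b) = ∑ a, ∑ b, C (A a b) * U N b * δ (U N a) := by
    rw [Finset.sum_comm]
    apply Finset.sum_congr rfl
    intro b _
    apply Finset.sum_congr rfl
    intro a _
    have h3 : A a b = A b a := by
      conv_lhs => rw [← hA, Matrix.transpose_apply]
    rw [h3]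
  rw [h2]
  ring

lemma pderiv_U {N : ℕ} (k : Fin N) (a : Fin (N + 1)) :
    pderiv k (U N a) = if a = k.succ then 1 else 0 := by
  refine Fin.cases ?_ (fun j => ?_) a
  · rw [U_zero, if_neg (Fin.succ_ne_zero k).symm]
    exact Derivation.map_one_eq_zero _
  · rw [U_succ]
    by_cases h : j = k
    · rw [h, pderiv_X_self, if_pos rfl]
    · rw [pderiv_X_of_ne h, if_neg]
      intro h'
      exact h (Fin.succ_injective _ h')

/-- the kernel relation -/
theorem row_zero {n N : ℕ} (F : MvPolynomial (Fin (n + 1 + 1)) ℂ) (hF : F.IsHomogeneous 3)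
    (A : Fin (n + 1 + 1) → Matrix (Fin (N + 1)) (Fin (N + 1)) ℂ)
    (hA : ∀ i, (A i).transpose = A i) (hFG : aeval (fun i => qf (A i)) F = 0) (a : Fin (N + 1)) :
    row A (fun i => aeval (fun i => qf (A i)) (pderiv i F)) a = 0 := by
  set G : Fin (n + 1 + 1) → MvPolynomial (Fin N) ℂ := fun i => qf (A i) with hG
  set ξ : Fin (n + 1 + 1) → MvPolynomial (Fin N) ℂ := fun i => aeval G (pderiv i F) with hξ
  have hsucc : ∀ k : Fin N, row A ξ k.succ = 0 := by
    intro k
    have h1 := chain (pderiv k) G F
    rw [hFG, map_zero] at h1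
    have h2 : ∀ i, aeval G (pderiv i F) * pderiv k (G i) = 2 * ∑ b, ξ i * (C (A i k.succ b) * U N b) := by
      intro i
      rw [hG]
      simp only
      rw [deriv_qf (pderiv k) (A i) (hA i)]
      rw [Finset.sum_eq_single k.succ]
      · rw [← Finset.mul_sum]
        have h3 : ∑ b, C (A i k.succ b) * U N b * pderiv k (U N k.succ) = ∑ b, C (A i k.succ b) * U N b := by
          apply Finset.sum_congr rfl
          intro b _
          rw [pderiv_U, if_pos rfl, mul_one]
        rw [h3]
        simp only [hξ, hG]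
        ring
      · intro b _ hb
        apply Finset.sum_eq_zero
        intro c _
        rw [pderiv_U, if_neg hb, mul_zero]
      · intro h
        exact absurd (Finset.mem_univ _) h
    rw [Finset.sum_congr rfl (fun i _ => h2 i), ← Finset.mul_sum] at h1
    rcases mul_eq_zero.1 h1.symm with h3 | h3
    · exact absurd h3 two_ne_zero
    · exact h3
  have hall : ∑ a, U N a * row A ξ a = 0 := by
    have h1 : ∑ a, U N a * row A ξ a = ∑ i, ξ i * G i := by
      unfold row
      simp only [Finset.mul_sum]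
      rw [Finset.sum_comm]
      apply Finset.sum_congr rfl
      intro i _
      simp only [hG]
      unfold qf
      rw [Finset.mul_sum]
      apply Finset.sum_congr rfl
      intro a _
      rw [Finset.mul_sum]
      apply Finset.sum_congr rfl
      intro b _
      ring
    rw [h1]
    have h2 := congrArg (aeval G) (hF.sum_X_mul_pderiv)
    rw [map_sum, map_nsmul, hFG, smul_zero] at h2
    rw [← h2]
    apply Finset.sum_congr rfl
    intro i _
    rw [map_mul, aeval_X, mul_comm]
  rw [Fin.sum_univ_succ] at hall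
  have h4 : ∑ k : Fin N, U N k.succ * row A ξ k.succ = 0 := by
    apply Finset.sum_eq_zero
    intro k _
    rw [hsucc k, mul_zero]
  rw [h4, add_zero, U_zero, one_mul] at hall
  refine Fin.cases hall hsucc a

/-- the gradient of `F` at the image point of `t` -/
def gr {n N : ℕ} (F : MvPolynomial (Fin (n + 1 + 1)) ℂ) (G : Fin (n + 1 + 1) → MvPolynomial (Fin N) ℂ)
    (t : Fin N → ℂ) : Fin (n + 1 + 1) → ℂ := fun i => eval t (aeval G (pderiv i F))

lemma eval_row {n N : ℕ} (A : Fin (n + 1 + 1) → Matrix (Fin (N + 1)) (Fin (N + 1)) ℂ)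
    (ξ : Fin (n + 1 + 1) → MvPolynomial (Fin N) ℂ) (t : Fin N → ℂ) (a : Fin (N + 1)) :
    eval t (row A ξ a) = (MM A (fun i => eval t (ξ i))).mulVec (fun b => eval t (U N b)) a := by
  unfold row MM
  rw [map_sum, Matrix.mulVec, dotProduct]
  have h1 : ∀ b, (∑ i, eval t (ξ i) • A i) a b = ∑ i, eval t (ξ i) * A i a b := by
    intro b
    rw [Matrix.sum_apply]
    apply Finset.sum_congr rfl
    intro i _
    rw [Matrix.smul_apply, smul_eq_mul]
  simp only [h1, Finset.sum_mul]
  rw [Finset.sum_comm]
  apply Finset.sum_congr rfl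
  intro i _
  rw [map_sum]
  apply Finset.sum_congr rfl
  intro b _
  rw [map_mul, map_mul, eval_C]
  ring

lemma eval_qf {N : ℕ} (A : Matrix (Fin (N + 1)) (Fin (N + 1)) ℂ) (t : Fin N → ℂ) :
    eval t (qf A) = dotProduct (fun b => eval t (U N b)) (A.mulVec (fun b => eval t (U N b))) := by
  unfold qf
  rw [map_sum, dotProduct]
  apply Finset.sum_congr rfl
  intro a _
  rw [map_sum, Matrix.mulVec, dotProduct, Finset.mul_sum]
  apply Finset.sum_congr rfl
  intro b _
  rw [map_mul, map_mul, eval_C]
  ring

/-- the derivation in direction `c` -/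
def dc {N : ℕ} (c : Fin N → ℂ) : Derivation ℂ (MvPolynomial (Fin N) ℂ) (MvPolynomial (Fin N) ℂ) :=
  mkDerivation ℂ (fun k => C (c k))

lemma dc_X {N : ℕ} (c : Fin N → ℂ) (k : Fin N) : dc c (X k) = C (c k) := by
  unfold dc
  rw [mkDerivation_X]

lemma dc_apply {N : ℕ} (c : Fin N → ℂ) (G : MvPolynomial (Fin N) ℂ) :
    dc c G = ∑ k, C (c k) * pderiv k G := by
  have h1 := chain (dc c) X G
  rw [aeval_X_left_apply] at h1
  rw [h1]
  apply Finset.sum_congr rfl
  intro k _
  rw [aeval_X_left_apply, dc_X, mul_comm]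

/-- directional derivative of the map `G` at `t` -/
def Lt {n N : ℕ} (G : Fin (n + 1 + 1) → MvPolynomial (Fin N) ℂ) (t : Fin N → ℂ) :
    (Fin N → ℂ) →ₗ[ℂ] (Fin (n + 1 + 1) → ℂ) :=
  Matrix.mulVecLin (Matrix.of fun i k => eval t (pderiv k (G i)))

lemma Lt_apply {n N : ℕ} (G : Fin (n + 1 + 1) → MvPolynomial (Fin N) ℂ) (t : Fin N → ℂ)
    (c : Fin N → ℂ) (i : Fin (n + 1 + 1)) : Lt G t c i = eval t (dc c (G i)) := by
  unfold Lt
  rw [Matrix.mulVecLin_apply, Matrix.mulVec, dotProduct, dc_apply, map_sum]
  apply Finset.sum_congr rfl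
  intro k _
  rw [Matrix.of_apply, map_mul, eval_C, mul_comm]

/-- the inclusion of directions -/
def inc (N : ℕ) : (Fin N → ℂ) →ₗ[ℂ] (Fin (N + 1) → ℂ) where
  toFun c := Fin.cons 0 c
  map_add' c d := by
    funext a
    refine Fin.cases ?_ (fun k => ?_) a
    · simp
    · simp
  map_smul' r c := by
    funext a
    refine Fin.cases ?_ (fun k => ?_) a
    · simp
    · simp

lemma inc_inj (N : ℕ) : Function.Injective (inc N) := by
  intro c d h
  funext k
  have := congrFun h k.succ
  simpa [inc] using this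

lemma dc_U {N : ℕ} (c : Fin N → ℂ) (a : Fin (N + 1)) : dc c (U N a) = C (inc N c a) := by
  refine Fin.cases ?_ (fun k => ?_) a
  · rw [U_zero, Derivation.map_one_eq_zero]
    simp [inc]
  · rw [U_succ, dc_X]
    simp [inc]

/-- directions killed by the differential of `G` lie in the kernel -/
theorem dir_ker {n N : ℕ} (F : MvPolynomial (Fin (n + 1 + 1)) ℂ) (hF : F.IsHomogeneous 3)
    (A : Fin (n + 1 + 1) → Matrix (Fin (N + 1)) (Fin (N + 1)) ℂ)
    (hA : ∀ i, (A i).transpose = A i) (hFG : aeval (fun i => qf (A i)) F = 0) (t c : Fin N → ℂ)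
    (hc : Lt (fun i => qf (A i)) t c = 0) :
    (MM A (gr F (fun i => qf (A i)) t)).mulVec (inc N c) = 0 := by
  set G : Fin (n + 1 + 1) → MvPolynomial (Fin N) ℂ := fun i => qf (A i) with hG
  funext a
  have h1 : row A (fun i => aeval G (pderiv i F)) a = 0 := row_zero F hF A hA hFG a
  have h2 := congrArg (fun z => eval t (dc c z)) h1
  simp only [map_zero] at h2
  unfold row at h2
  have hξ : ∀ i, eval t (dc c (aeval G (pderiv i F))) = 0 := by
    intro i
    rw [chain (dc c) G (pderiv i F), map_sum]
    apply Finset.sum_eq_zero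
    intro j _
    rw [map_mul, ← Lt_apply, hc, Pi.zero_apply, mul_zero]
  rw [map_sum, map_sum] at h2
  rw [Pi.zero_apply, ← h2]
  unfold MM
  rw [Matrix.mulVec, dotProduct]
  have h3 : ∀ b, (∑ i, gr F G t i • A i) a b = ∑ i, gr F G t i * A i a b := by
    intro b
    rw [Matrix.sum_apply]
    apply Finset.sum_congr rfl
    intro i _
    rw [Matrix.smul_apply, smul_eq_mul]
  simp only [h3, Finset.sum_mul]
  rw [Finset.sum_comm]
  apply Finset.sum_congr rfl
  intro i _
  rw [map_sum, map_sum]
  apply Finset.sum_congr rfl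
  intro b _
  rw [Derivation.leibniz, Derivation.leibniz, dc_U, derivation_C]
  simp only [smul_eq_mul, mul_zero, add_zero, map_add, map_mul, eval_C, hξ]
  unfold gr
  ring

theorem rank_le {n N : ℕ} (F : MvPolynomial (Fin (n + 1 + 1)) ℂ) (hF : F.IsHomogeneous 3)
    (A : Fin (n + 1 + 1) → Matrix (Fin (N + 1)) (Fin (N + 1)) ℂ)
    (hA : ∀ i, (A i).transpose = A i) (hFG : aeval (fun i => qf (A i)) F = 0) (t : Fin N → ℂ) :
    (MM A (gr F (fun i => qf (A i)) t)).rank ≤ n + 3 := by
  set G : Fin (n + 1 + 1) → MvPolynomial (Fin N) ℂ := fun i => qf (A i) with hG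
  set M := MM A (gr F G t) with hM
  have h1 : Module.finrank ℂ (LinearMap.ker (Lt G t)) ≤ Module.finrank ℂ (LinearMap.ker M.mulVecLin) := by
    have h2 : ∀ c : LinearMap.ker (Lt G t), inc N c.1 ∈ LinearMap.ker M.mulVecLin := by
      intro c
      rw [LinearMap.mem_ker, Matrix.mulVecLin_apply]
      exact dir_ker F hF A hA hFG t c.1 (LinearMap.mem_ker.1 c.2)
    let φ : LinearMap.ker (Lt G t) →ₗ[ℂ] LinearMap.ker M.mulVecLin :=
      LinearMap.codRestrict _ ((inc N).comp (Submodule.subtype _)) h2
    apply LinearMap.finrank_le_finrank_of_injective (f := φ)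
    intro c d h
    apply Subtype.ext
    apply inc_inj N
    exact congrArg Subtype.val h
  have h3 := LinearMap.finrank_range_add_finrank_ker (Lt G t)
  have h4 := LinearMap.finrank_range_add_finrank_ker M.mulVecLin
  have h5 : Module.finrank ℂ (LinearMap.range (Lt G t)) ≤ n + 2 := by
    refine (Submodule.finrank_le _).trans ?_
    rw [Module.finrank_fin_fun]
  rw [Module.finrank_fin_fun] at h3 h4
  have h6 : M.rank = Module.finrank ℂ (LinearMap.range M.mulVecLin) := rfl
  omega

lemma rank_zero_imp {κ : Type*} [Fintype κ] [DecidableEq κ] (M : Matrix κ κ ℂ) (h : M.rank = 0) :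
    M = 0 := by
  have h1 : Module.finrank ℂ (LinearMap.range M.mulVecLin) = 0 := h
  rw [Submodule.finrank_eq_zero] at h1
  have h2 : M.mulVecLin = 0 := LinearMap.range_eq_bot.1 h1
  ext i j
  have h3 := congrFun (LinearMap.congr_fun h2 (Pi.single j 1)) i
  rw [Matrix.mulVecLin_apply, Matrix.mulVec_single_one] at h3
  exact h3

/-- **Maps of degree at most two.** -/
theorem param {n N : ℕ} (F : MvPolynomial (Fin (n + 1 + 1)) ℂ) (hF : F.IsHomogeneous 3)
    (G : Fin (n + 1 + 1) → MvPolynomial (Fin N) ℂ) (hG : ∀ i, (G i).totalDegree ≤ 2)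
    (hne : ∃ i, G i ≠ 0) (hFG : aeval G F = 0) :
    ∃ r ≤ n + 4, ∃ D : MvPolynomial (Fin (n + 1 + 1)) ℂ, D.IsHomogeneous r ∧ D ≠ 0 ∧
      aeval (fun i => aeval G (pderiv i F)) D = 0 := by
  choose A hA hGA using fun i => rep (G i) (hG i)
  have hGe : G = fun i => qf (A i) := funext hGA
  obtain ⟨x, hx⟩ := exists_max_rank A
  set r := (MM A x).rank with hr
  -- the rank is positive
  have hrpos : 0 < r := by
    obtain ⟨i, hi⟩ := hne
    have h1 := hx (Pi.single i 1)
    have h2 : MM A (Pi.single i 1) = A i := by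
      unfold MM
      rw [Finset.sum_eq_single i]
      · rw [Pi.single_eq_same, one_smul]
      · intro j _ hj
        rw [Pi.single_eq_of_ne hj, zero_smul]
      · intro h
        exact absurd (Finset.mem_univ _) h
    rw [h2] at h1
    refine lt_of_lt_of_le ?_ h1
    rw [Nat.pos_iff_ne_zero]
    intro h3
    replace h3 := rank_zero_imp (A i) h3
    apply hi
    rw [hGA i, h3]
    have := qf_smul (0 : ℂ) (0 : Matrix (Fin (N + 1)) (Fin (N + 1)) ℂ)
    rw [zero_smul, map_zero, zero_mul] at this
    exact this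
  set ρ := min r (n + 4) with hρ
  obtain ⟨B1, B2, hB⟩ := compress (MM A x) ρ (min_le_left _ _)
  refine ⟨ρ, min_le_right _ _, DD A B1 B2, DD_hom A B1 B2, ?_, ?_⟩
  · intro h
    have h1 := eval_DD A B1 B2 x
    rw [h, map_zero, hB, Matrix.det_one] at h1
    exact zero_ne_one h1
  · apply MvPolynomial.funext
    intro t
    rw [map_zero]
    have h1 : eval t (aeval (fun i => aeval G (pderiv i F)) (DD A B1 B2)) =
        eval (gr F G t) (DD A B1 B2) := by
      generalize DD A B1 B2 = D
      induction D using MvPolynomial.induction_on with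
      | C a => simp
      | add p q hp hq => rw [map_add, map_add, map_add, hp, hq]
      | mul_X p i hp =>
        rw [map_mul, map_mul, map_mul, hp, aeval_X, eval_X]
        rfl
    rw [h1, eval_DD]
    apply compress_det_zero
    have h2 : (MM A (gr F G t)).rank ≤ n + 3 := by
      rw [hGe]
      rw [hGe] at hFG
      exact rank_le F hF A hA hFG t
    have h3 : (MM A (gr F G t)).rank < r := by
      refine lt_of_le_of_ne (hx _) ?_
      intro heq
      have hmax : ∀ y, (MM A y).rank ≤ (MM A (gr F G t)).rank := by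
        rw [heq]
        exact hx
      have hker : (MM A (gr F G t)).mulVec (fun b => eval t (U N b)) = 0 := by
        funext a
        have h4 := eval_row A (fun i => aeval G (pderiv i F)) t a
        have h5 : row A (fun i => aeval G (pderiv i F)) a = 0 := by
          rw [hGe]
          rw [hGe] at hFG
          exact row_zero F hF A hA hFG a
        rw [h5, map_zero] at h4
        exact h4.symm
      have hiso := isotropic A hA (gr F G t) hmax _ hker
      have hG0 : ∀ i, eval t (G i) = 0 := by
        intro i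
        have h6 := hiso (Pi.single i 1)
        have h7 : MM A (Pi.single i 1) = A i := by
          unfold MM
          rw [Finset.sum_eq_single i]
          · rw [Pi.single_eq_same, one_smul]
          · intro j _ hj
            rw [Pi.single_eq_of_ne hj, zero_smul]
          · intro h
            exact absurd (Finset.mem_univ _) h
        rw [h7] at h6
        rw [hGA i, eval_qf]
        exact h6
      have hgr : gr F G t = 0 := by
        funext i
        unfold gr
        have h8 : eval t (aeval G (pderiv i F)) = eval (fun j => eval t (G j)) (pderiv i F) := by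
          generalize pderiv i F = D
          induction D using MvPolynomial.induction_on with
          | C a => simp
          | add p q hp hq => rw [map_add, map_add, map_add, hp, hq]
          | mul_X p i hp => rw [map_mul, map_mul, map_mul, hp, aeval_X, eval_X]
        rw [h8]
        have h9 : (fun j => eval t (G j)) = (fun _ => (0 : ℂ)) := funext hG0
        rw [h9]
        rw [show (fun _ => (0 : ℂ)) = (0 : Fin (n + 1 + 1) → ℂ) from rfl, eval_zero,
          constantCoeff_eq]
        exact (hF.pderiv (i := i)).coeff_eq_zero (by simp)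
      rw [hgr] at heq
      have h11 : MM A (0 : Fin (n + 1 + 1) → ℂ) = 0 := by
        unfold MM
        apply Finset.sum_eq_zero
        intro i _
        rw [Pi.zero_apply, zero_smul]
      rw [h11, Matrix.rank_zero] at heq
      omega
    exact lt_min h3 (by omega)

end

end Pool.Agent.TH238.QP
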