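import Mathlib
import Pool.Agent.TH238.QP.Generic
import Pool.Agent.TH238.QP.Param

/-!
# A general cubic hypersurface is not dominated by maps of degree at most two
-/

open MvPolynomial

namespace Pool.Agent.TH238.QP

noncomputable section

/-- the chart `x_0 = 1` -/
def dh (n : ℕ) : MvPolynomial (Fin (n + 1 + 1)) ℂ →ₐ[ℂ] MvPolynomial (Fin (n + 1)) ℂ :=
  aeval (Fin.cases (motive := fun _ => MvPolynomial (Fin (n + 1)) ℂ) 1 (fun j => X j))

lemma dh_X_zero (n : ℕ) : dh n (X 0) = 1 := by
  unfold dh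
  rw [aeval_X]
  rfl

lemma dh_X_succ (n : ℕ) (j : Fin (n + 1)) : dh n (X j.succ) = X j := by
  unfold dh
  rw [aeval_X]
  rfl

/-- evaluation of a homogeneous polynomial at a multiple -/
lemma aeval_smul_hom {K : Type*} [Field K] [Algebra ℂ K] {τ : Type*} [Fintype τ]
    (P : MvPolynomial τ ℂ) (d : ℕ) (hP : P.IsHomogeneous d) (q : K) (y : τ → K) :
    aeval (fun i => q * y i) P = q ^ d * aeval y P := by
  rw [aeval_def, aeval_def, eval₂_eq', eval₂_eq', Finset.mul_sum]
  apply Finset.sum_congr rfl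
  intro β hβ
  have h1 : ∑ i, β i = d := by
    have := hP (mem_support_iff.1 hβ)
    rw [← this, ← Finsupp.degree_eq_sum, Finsupp.degree_eq_weight_one]
    rfl
  have h2 : ∏ i, (q * y i) ^ β i = q ^ d * ∏ i, y i ^ β i := by
    rw [← h1, ← Finset.prod_pow_eq_pow_sum, ← Finset.prod_mul_distrib]
    apply Finset.prod_congr rfl
    intro i _
    rw [mul_pow]
  rw [h2]
  ring

lemma eval_dh (n : ℕ) (z : Fin (n + 1) → ℂ) (P : MvPolynomial (Fin (n + 1 + 1)) ℂ) :
    eval z (dh n P) = eval (Fin.cons (α := fun _ => ℂ) 1 z) P := by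
  induction P using MvPolynomial.induction_on with
  | C a => simp [dh]
  | add p q hp hq => rw [map_add, map_add, map_add, hp, hq]
  | mul_X p i hp =>
    rw [map_mul, map_mul, map_mul, hp, eval_X]
    congr 1
    refine Fin.cases ?_ (fun j => ?_) i
    · rw [dh_X_zero, map_one, Fin.cons_zero]
    · rw [dh_X_succ, eval_X, Fin.cons_succ]

lemma dh_inj (n d : ℕ) (H : MvPolynomial (Fin (n + 1 + 1)) ℂ) (hH : H.IsHomogeneous d)
    (h : dh n H = 0) : H = 0 := by
  have h1 : X 0 * H = 0 := by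
    apply MvPolynomial.funext
    intro x
    rw [map_mul, map_zero, eval_X]
    by_cases hx : x 0 = 0
    · rw [hx, zero_mul]
    · have h2 : x = fun i => x 0 * (Fin.cons (α := fun _ => ℂ) 1 (fun j : Fin (n + 1) => x j.succ / x 0) :
          Fin (n + 1 + 1) → ℂ) i := by
        funext i
        refine Fin.cases ?_ (fun j => ?_) i
        · rw [Fin.cons_zero, mul_one]
        · rw [Fin.cons_succ]
          field_simp
      have h3 := aeval_smul_hom (K := ℂ) H d hH (x 0)
        (Fin.cons (α := fun _ => ℂ) 1 (fun j : Fin (n + 1) => x j.succ / x 0))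
      rw [← h2] at h3
      have h4 : eval x H = aeval x H := rfl
      have h5 : (aeval (Fin.cons (α := fun _ => ℂ) 1 (fun j : Fin (n + 1) => x j.succ / x 0) :
          Fin (n + 1 + 1) → ℂ)) H = eval (fun j : Fin (n + 1) => x j.succ / x 0) (dh n H) := by
        rw [eval_dh]
        rfl
      rw [h4, h3, h5, h, map_zero, mul_zero, mul_zero]
  rcases mul_eq_zero.1 h1 with h2 | h2
  · exact absurd h2 (X_ne_zero 0)
  · exact h2

/-- homogenisation -/
def hg (n d : ℕ) (e : MvPolynomial (Fin (n + 1)) ℂ) : MvPolynomial (Fin (n + 1 + 1)) ℂ :=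
  ∑ β ∈ e.support, C (e.coeff β) * (X 0 ^ (d - β.degree) * ∏ j : Fin (n + 1), X j.succ ^ β j)

lemma hg_hom (n d : ℕ) (e : MvPolynomial (Fin (n + 1)) ℂ) (he : e.totalDegree ≤ d) :
    (hg n d e).IsHomogeneous d := by
  unfold hg
  apply IsHomogeneous.sum
  intro β hβ
  have h0 : β.degree ≤ d := by
    refine le_trans ?_ he
    have := le_totalDegree hβ
    rw [Finsupp.degree_eq_sum]
    rw [Finsupp.sum_fintype _ _ (fun _ => rfl)] at this
    exact this
  have h1 : (∏ j : Fin (n + 1), X j.succ ^ β j : MvPolynomial (Fin (n + 1 + 1)) ℂ).IsHomogeneous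
      (∑ j, β j) := by
    apply IsHomogeneous.prod
    intro j _
    have := (isHomogeneous_X ℂ (j.succ)).pow (β j)
    rw [one_mul] at this
    exact this
  have h2 := ((isHomogeneous_X ℂ (0 : Fin (n + 1 + 1))).pow (d - β.degree)).mul h1
  have h3 := (isHomogeneous_C (Fin (n + 1 + 1)) (e.coeff β)).mul h2
  have h4 : 0 + (1 * (d - β.degree) + ∑ j, β j) = d := by
    rw [← Finsupp.degree_eq_sum]
    omega
  rw [h4] at h3
  exact h3

lemma dh_hg (n d : ℕ) (e : MvPolynomial (Fin (n + 1)) ℂ) : dh n (hg n d e) = e := by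
  conv_rhs => rw [e.as_sum]
  unfold hg
  rw [map_sum]
  apply Finset.sum_congr rfl
  intro β _
  rw [map_mul, map_mul, map_pow, dh_X_zero, one_pow, one_mul, map_prod]
  have h1 : dh n (C (e.coeff β)) = C (e.coeff β) := by
    unfold dh
    rw [aeval_C]
    rfl
  rw [h1, monomial_eq, Finsupp.prod_fintype _ _ (fun _ => pow_zero _)]
  congr 1
  apply Finset.prod_congr rfl
  intro j _
  rw [map_pow, dh_X_succ]

lemma dh_totalDegree (n d : ℕ) (P : MvPolynomial (Fin (n + 1 + 1)) ℂ) (hP : P.IsHomogeneous d) :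
    (dh n P).totalDegree ≤ d := by
  rw [P.as_sum, map_sum]
  apply totalDegree_finsetSum_le
  intro β hβ
  have h1 : ∑ i, β i = d := by
    have := hP (mem_support_iff.1 hβ)
    rw [← this, ← Finsupp.degree_eq_sum, Finsupp.degree_eq_weight_one]
    rfl
  rw [monomial_eq, map_mul, Finsupp.prod_fintype _ _ (fun _ => pow_zero _), map_prod]
  have h2 : dh n (C (P.coeff β)) = C (P.coeff β) := by
    unfold dh
    rw [aeval_C]
    rfl
  rw [h2]
  refine (totalDegree_mul _ _).trans ?_
  rw [totalDegree_C, zero_add]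
  refine (totalDegree_finsetProd _ _).trans ?_
  rw [← h1]
  apply Finset.sum_le_sum
  intro i _
  rw [map_pow]
  refine (totalDegree_pow _ _).trans ?_
  have h3 : (dh n (X i)).totalDegree ≤ 1 := by
    refine Fin.cases ?_ (fun j => ?_) i
    · rw [dh_X_zero, totalDegree_one]
      exact Nat.zero_le _
    · rw [dh_X_succ, totalDegree_X]
  calc β i * (dh n (X i)).totalDegree ≤ β i * 1 := Nat.mul_le_mul_left _ h3
    _ = β i := mul_one _

/-- **No map of degree at most two into a cubic hypersurface satisfying the conclusion of `generic_cubic` is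
dominant.** -/
theorem not_dominant (n : ℕ) (F : MvPolynomial (Fin (n + 1 + 1)) ℂ) (hF : F.IsHomogeneous 3)
    (hgen : ∀ r ≤ n + 4, ∀ D E : MvPolynomial (Fin (n + 1 + 1)) ℂ, D.IsHomogeneous r →
      E.IsHomogeneous (2 * r) → X 0 ^ 3 * aeval (fun i => pderiv i F) D = F * E → D = 0)
    (N : ℕ) (ψ : (MvPolynomial (Fin (n + 1)) ℂ ⧸ Ideal.span {dh n F}) →ₐ[ℂ]
      FractionRing (MvPolynomial (Fin N) ℂ)) (hψ : Function.Injective ψ)
    (q : MvPolynomial (Fin N) ℂ) (g : Fin (n + 1) → MvPolynomial (Fin N) ℂ) (hq : q ≠ 0)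
    (hq2 : q.totalDegree ≤ 2) (hg2 : ∀ j, (g j).totalDegree ≤ 2) :
    ∃ j, ψ (Ideal.Quotient.mk _ (X j)) * algebraMap _ _ q ≠ algebraMap _ _ (g j) := by
  by_contra hcon
  push Not at hcon
  set K := FractionRing (MvPolynomial (Fin N) ℂ) with hK
  set π : MvPolynomial (Fin (n + 1)) ℂ →ₐ[ℂ] (MvPolynomial (Fin (n + 1)) ℂ ⧸ Ideal.span {dh n F}) :=
    Ideal.Quotient.mkₐ ℂ _ with hπ
  set al : MvPolynomial (Fin N) ℂ →ₐ[ℂ] K := IsScalarTower.toAlgHom ℂ _ _ with hal
  have halinj : Function.Injective al := IsFractionRing.injective (MvPolynomial (Fin N) ℂ) K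
  set G : Fin (n + 1 + 1) → MvPolynomial (Fin N) ℂ := Fin.cons q g with hG
  -- F is not zero
  have hF0 : F ≠ 0 := by
    intro h0
    have h1 := hgen 1 (by omega) (X 0) 0 (isHomogeneous_X ℂ 0) (isHomogeneous_zero _ _ _) (by
      rw [aeval_X, h0, map_zero, mul_zero, mul_zero])
    exact X_ne_zero _ h1
  -- evaluation of forms at G
  have key : ∀ (d : ℕ) (P : MvPolynomial (Fin (n + 1 + 1)) ℂ), P.IsHomogeneous d →
      al (aeval G P) = al q ^ d * ψ (π (dh n P)) := by
    intro d P hP
    set y : Fin (n + 1 + 1) → K := Fin.cons (α := fun _ => K) 1 (fun j => ψ (π (X j))) with hy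
    have h1 : (fun i => al (G i)) = fun i => al q * y i := by
      funext i
      refine Fin.cases ?_ (fun j => ?_) i
      · rw [hG, hy, Fin.cons_zero, Fin.cons_zero, mul_one]
      · rw [hG, hy, Fin.cons_succ, Fin.cons_succ, mul_comm]
        exact (hcon j).symm
    have h2 : al (aeval G P) = aeval (fun i => al (G i)) P := by
      rw [← AlgHom.comp_apply, comp_aeval]
    have h3 : ψ (π (dh n P)) = aeval y P := by
      have h4 : ((ψ.comp π).comp (dh n)) = aeval y := by
        apply algHom_ext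
        intro i
        rw [aeval_X]
        refine Fin.cases ?_ (fun j => ?_) i
        · rw [AlgHom.comp_apply, dh_X_zero, map_one, hy, Fin.cons_zero]
        · rw [AlgHom.comp_apply, dh_X_succ, hy, Fin.cons_succ]
          rfl
      rw [← h4]
      rfl
    rw [h2, h1, h3]
    exact aeval_smul_hom P d hP (al q) y
  have hFG : aeval G F = 0 := by
    apply halinj
    rw [key 3 F hF, map_zero]
    have h1 : π (dh n F) = 0 := by
      rw [hπ, Ideal.Quotient.mkₐ_eq_mk, Ideal.Quotient.eq_zero_iff_mem]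
      exact Ideal.subset_span rfl
    rw [h1, map_zero, mul_zero]
  obtain ⟨r, hr, D, hD, hD0, hDG⟩ := param F hF G (by
    intro i
    refine Fin.cases ?_ (fun j => ?_) i
    · rw [hG, Fin.cons_zero]
      exact hq2
    · rw [hG, Fin.cons_succ]
      exact hg2 j) ⟨0, by rw [hG, Fin.cons_zero]; exact hq⟩ hFG
  set P : MvPolynomial (Fin (n + 1 + 1)) ℂ := aeval (fun i => pderiv i F) D with hPdef
  have hP : P.IsHomogeneous (2 * r) := by
    exact hD.aeval (fun i => pderiv i F) (n := 2) (fun i => hF.pderiv)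
  have hPG : aeval G P = 0 := by
    rw [← hDG, hPdef, ← AlgHom.comp_apply, comp_aeval]
  have h1 : π (dh n P) = 0 := by
    have h2 := key (2 * r) P hP
    rw [hPG, map_zero] at h2
    have h3 : al q ≠ 0 := by
      intro h
      apply hq
      apply halinj
      rw [h, map_zero]
    rcases mul_eq_zero.1 h2.symm with h4 | h4
    · exact absurd h4 (pow_ne_zero _ h3)
    · apply hψ
      rw [h4, map_zero]
  rw [hπ, Ideal.Quotient.mkₐ_eq_mk, Ideal.Quotient.eq_zero_iff_mem, Ideal.mem_span_singleton] at h1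
  obtain ⟨e, he⟩ := h1
  have hf0 : dh n F ≠ 0 := fun h => hF0 (dh_inj n 3 F hF h)
  have hedeg : e.totalDegree ≤ 2 * r := by
    by_cases he0 : e = 0
    · rw [he0, totalDegree_zero]
      exact Nat.zero_le _
    · have h2 := totalDegree_mul_of_isDomain hf0 he0
      rw [← he] at h2
      have h3 := dh_totalDegree n (2 * r) P hP
      omega
  have hE := hg_hom n (2 * r) e hedeg
  apply hD0
  apply hgen r hr D (hg n (2 * r) e) hD hE
  rw [← sub_eq_zero]
  apply dh_inj n (2 * r + 3)
  · apply IsHomogeneous.sub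
    · have h5 := ((isHomogeneous_X ℂ (0 : Fin (n + 1 + 1))).pow 3).mul hP
      have h6 : 1 * 3 + 2 * r = 2 * r + 3 := by ring
      rw [h6] at h5
      exact h5
    · have h4 := hF.mul hE
      have h6 : 3 + 2 * r = 2 * r + 3 := by ring
      rw [h6] at h4
      exact h4
  · rw [map_sub, map_mul, map_mul, map_pow, dh_X_zero, one_pow, one_mul, dh_hg, ← he, sub_self]

end

end Pool.Agent.TH238.QP
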